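import Pool.Agent.N492.LS.OrtB

/-!
# Project LS, part ORT: almost orthogonality with weights (helper492)
-/

set_option autoImplicit false

namespace Pool.Agent.N492.LS

open MeasureTheory Pool.Agent.N303.LS
open scoped ENNReal FourierTransform RealInnerProductSpace SchwartzMap ComplexConjugate

section

variable {d : ℕ}

theorem en2 (z : ℂ) : ‖z‖ₑ ^ (2 : ℝ) = ENNReal.ofReal (‖z‖ ^ 2) := by
  rw [ENNReal.rpow_two, ENNReal.ofReal_pow (norm_nonneg _), ofReal_norm_eq_enorm]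

theorem enorm_e (t : ℝ) : ‖e t‖ₑ = 1 := by
  rw [← ofReal_norm_eq_enorm, norm_e, ENNReal.ofReal_one]

theorem lint_sq (n : ℕ) (a : E d) {g : E d → ℂ} (hg : Continuous g) :
    ∫⁻ x in cu n a, ‖g x‖ₑ ^ (2 : ℝ) = ENNReal.ofReal (∫ x in cu n a, ‖g x‖ ^ 2) := by
  have i1 : IntegrableOn (fun x : E d => ‖g x‖ ^ 2) (cu n a) :=
    (hg.norm.pow 2).continuousOn.integrableOn_compact (cu_compact n a)
  rw [ofReal_integral_eq_lintegral_ofReal i1
    (Filter.Eventually.of_forall fun x => by positivity)]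
  exact lintegral_congr fun x => en2 _

theorem int_tp (n : ℕ) (a : E d) (B : Finset (Fin d → ℤ)) (c : (Fin d → ℤ) → ℂ) :
    ∫⁻ x in cu n a, ‖tp B c x‖ₑ ^ (2 : ℝ) =
      ENNReal.ofReal ((2 * n : ℝ) ^ d * ∑ m ∈ B, ‖c m‖ ^ 2) := by
  rw [lint_sq n a (cont_tp B c), parseval]

theorem bessel_bt {n : ℕ} (hn : 1 ≤ n) (a : E d) {h : E d → ℂ} (hh : Continuous h) (ξ : E d)
    (B : Finset (Fin d → ℤ)) : ∑ m ∈ B, ‖bt n a h (ξ + pt m)‖ ^ 2 ≤
      (2 * n : ℝ) ^ d * ∫ x in cu n a, ‖h x‖ ^ 2 := by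
  have h1 := bessel hn a B (g := fun u => h u * conj (e ⟪u, ξ⟫))
    (hh.mul (Complex.continuous_conj.comp (cont_el ξ)))
  have h2 : ∀ m : Fin d → ℤ, ∫ x in cu n a, (h x * conj (e ⟪x, ξ⟫)) * conj (e ⟪x, pt m⟫) =
      bt n a h (ξ + pt m) := by
    intro m
    unfold bt
    refine integral_congr_ae (Filter.Eventually.of_forall fun u => ?_)
    show (h u * conj (e ⟪u, ξ⟫)) * conj (e ⟪u, pt m⟫) = h u * conj (e ⟪u, ξ + pt m⟫)
    rw [inner_add_right, e_add, map_mul, mul_assoc]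
  have h3 : ∀ x : E d, ‖h x * conj (e ⟪x, ξ⟫)‖ = ‖h x‖ := by
    intro x
    rw [norm_mul, RCLike.norm_conj, norm_e, mul_one]
  simp only [h2, h3] at h1
  exact h1

theorem fK_meas (K : 𝓢(E d, ℂ)) : Measurable fun ξ : E d => ‖𝓕 (K : E d → ℂ) ξ‖ₑ :=
  (cont_fK K).measurable.enorm

theorem fK_top (K : 𝓢(E d, ℂ)) : ∫⁻ ξ : E d, ‖𝓕 (K : E d → ℂ) ξ‖ₑ ≠ ⊤ :=
  (int_fK K).hasFiniteIntegral.ne

theorem tp_cont (n : ℕ) (a : E d) {h : E d → ℂ} (hh : Continuous h) (A : Finset (Fin d → ℤ)) :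
    Continuous fun z : E d × E d => tp A (fun m => bt n a h (z.2 + pt m)) z.1 := by
  unfold tp
  exact continuous_finsetSum _ fun m _ =>
    ((cont_bt n a hh).comp (continuous_snd.add continuous_const)).mul
      ((cont_ch m).comp continuous_fst)

theorem pw (K : 𝓢(E d, ℂ)) {F : E d → ℂ} (hF : Integrable F) (n : ℕ) (a x : E d)
    (hx : ∀ u, K (x - u) ≠ 0 → u ∈ cu n a) (A : Finset (Fin d → ℤ)) :
    ‖inv (fun ξ => psi K A ξ * F ξ) x‖ₑ ^ (2 : ℝ) ≤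
      (∫⁻ ξ : E d, ‖𝓕 (K : E d → ℂ) ξ‖ₑ) * ∫⁻ ξ : E d, ‖𝓕 (K : E d → ℂ) ξ‖ₑ *
        ‖tp A (fun m => bt n a (inv F) (ξ + pt m)) x‖ₑ ^ (2 : ℝ) := by
  have hm : Measurable fun ξ : E d => ‖tp A (fun m => bt n a (inv F) (ξ + pt m)) x‖ₑ :=
    ((tp_cont n a (cont_inv hF) A).comp (continuous_const.prodMk continuous_id)).measurable.enorm
  rw [formulaA K hF n a x hx A]
  refine le_trans (ENNReal.rpow_le_rpow (enorm_integral_le_lintegral_enorm _) (by norm_num)) ?_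
  have h2 : ∫⁻ ξ : E d, ‖𝓕 (K : E d → ℂ) ξ * (e ⟪x, ξ⟫ *
      tp A (fun m => bt n a (inv F) (ξ + pt m)) x)‖ₑ = ∫⁻ ξ : E d, ‖𝓕 (K : E d → ℂ) ξ‖ₑ *
        ‖tp A (fun m => bt n a (inv F) (ξ + pt m)) x‖ₑ := by
    refine lintegral_congr fun ξ => ?_
    rw [enorm_mul, enorm_mul, enorm_e, one_mul]
  rw [h2]
  exact cs_w (fK_meas K).aemeasurable hm.aemeasurable

theorem pw2 (K : 𝓢(E d, ℂ)) {F : E d → ℂ} (hF : Integrable F) (n : ℕ) (a : E d)
    (hx : ∀ x ∈ cu 1 a, ∀ u, K (x - u) ≠ 0 → u ∈ cu n a) (A : Finset (Fin d → ℤ)) :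
    ∫⁻ x in cu 1 a, ‖inv (fun ξ => psi K A ξ * F ξ) x‖ₑ ^ (2 : ℝ) ≤
      (∫⁻ ξ : E d, ‖𝓕 (K : E d → ℂ) ξ‖ₑ) * ∫⁻ ξ : E d, ‖𝓕 (K : E d → ℂ) ξ‖ₑ *
        ENNReal.ofReal (2 ^ d * ∑ m ∈ A, ‖bt n a (inv F) (ξ + pt m)‖ ^ 2) := by
  refine (setLIntegral_mono' (cu_meas 1 a) fun x hxa => pw K hF n a x (hx x hxa) A).trans ?_
  rw [lintegral_const_mul' _ _ (fK_top K)]
  refine mul_le_mul_right ?_ _
  rw [lintegral_lintegral_swap]
  · refine le_of_eq (lintegral_congr fun ξ => ?_)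
    rw [lintegral_const_mul' _ _ enorm_ne_top, int_tp]
    norm_num
  · refine Measurable.aemeasurable ?_
    exact ((fK_meas K).comp measurable_snd).mul
      ((tp_cont n a (cont_inv hF) A).measurable.enorm.pow_const _)

theorem bes (n : ℕ) (hn : 1 ≤ n) (a : E d) {h : E d → ℂ} (hh : Continuous h) (ξ : E d) {ι : Type}
    [Fintype ι] (A : ι → Finset (Fin d → ℤ)) (hA : ∀ i j, i ≠ j → Disjoint (A i) (A j)) :
    ∑ i, ENNReal.ofReal (2 ^ d * ∑ m ∈ A i, ‖bt n a h (ξ + pt m)‖ ^ 2) ≤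
      ENNReal.ofReal (2 ^ d * (2 * n : ℝ) ^ d) * ∫⁻ u in cu n a, ‖h u‖ₑ ^ (2 : ℝ) := by
  classical
  rw [lint_sq n a hh, ← ENNReal.ofReal_mul (by positivity),
    ← ENNReal.ofReal_sum_of_nonneg fun i _ => by positivity]
  refine ENNReal.ofReal_le_ofReal ?_
  rw [← Finset.mul_sum, mul_assoc]
  refine mul_le_mul_of_nonneg_left ?_ (by positivity)
  have h5 : ∑ i, ∑ m ∈ A i, ‖bt n a h (ξ + pt m)‖ ^ 2 =
      ∑ m ∈ Finset.univ.biUnion A, ‖bt n a h (ξ + pt m)‖ ^ 2 := by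
    rw [Finset.sum_biUnion]
    intro i _ j _ hij
    exact hA i j hij
  rw [h5]
  exact bessel_bt hn a hh ξ _

/-- the local estimate -/
theorem local_est (K : 𝓢(E d, ℂ)) {n : ℕ} (hn : 1 ≤ n) (a : E d)
    (hx : ∀ x ∈ cu 1 a, ∀ u, K (x - u) ≠ 0 → u ∈ cu n a) {ι : Type} [Fintype ι]
    (A : ι → Finset (Fin d → ℤ)) (hA : ∀ i j, i ≠ j → Disjoint (A i) (A j)) {F : E d → ℂ}
    (hF : Integrable F) :
    ∑ i, ∫⁻ x in cu 1 a, ‖inv (fun ξ => psi K (A i) ξ * F ξ) x‖ₑ ^ (2 : ℝ) ≤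
      (∫⁻ ξ : E d, ‖𝓕 (K : E d → ℂ) ξ‖ₑ) * ((∫⁻ ξ : E d, ‖𝓕 (K : E d → ℂ) ξ‖ₑ) *
        (ENNReal.ofReal (2 ^ d * (2 * n : ℝ) ^ d) * ∫⁻ u in cu n a, ‖inv F u‖ₑ ^ (2 : ℝ))) := by
  refine (Finset.sum_le_sum fun i _ => pw2 K hF n a hx (A i)).trans ?_
  rw [← Finset.mul_sum]
  refine mul_le_mul_right ?_ _
  have h3 : ∀ i ∈ (Finset.univ : Finset ι), Measurable fun ξ : E d => ‖𝓕 (K : E d → ℂ) ξ‖ₑ *
      ENNReal.ofReal (2 ^ d * ∑ m ∈ A i, ‖bt n a (inv F) (ξ + pt m)‖ ^ 2) := by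
    intro i _
    refine (fK_meas K).mul (ENNReal.measurable_ofReal.comp ?_)
    exact (continuous_const.mul (continuous_finsetSum _ fun m _ =>
      (((cont_bt n a (cont_inv hF)).comp
        (continuous_id.add continuous_const)).norm.pow 2))).measurable
  rw [← lintegral_finsetSum _ h3]
  have h4 : ∀ ξ : E d, ∑ i, ‖𝓕 (K : E d → ℂ) ξ‖ₑ *
      ENNReal.ofReal (2 ^ d * ∑ m ∈ A i, ‖bt n a (inv F) (ξ + pt m)‖ ^ 2) ≤
      ‖𝓕 (K : E d → ℂ) ξ‖ₑ * (ENNReal.ofReal (2 ^ d * (2 * n : ℝ) ^ d) *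
        ∫⁻ u in cu n a, ‖inv F u‖ₑ ^ (2 : ℝ)) := by
    intro ξ
    rw [← Finset.mul_sum]
    exact mul_le_mul_right (bes n hn a (cont_inv hF) ξ A hA) _
  refine (lintegral_mono h4).trans ?_
  rw [lintegral_mul_const _ (fK_meas K)]

/-! ### the weights -/

theorem w_nn (M : ℕ) (x : E d) : 0 ≤ W M x := by
  unfold W
  positivity

theorem cont_W (M : ℕ) : Continuous (W M : E d → ℝ) := by
  unfold W
  refine Continuous.inv₀ (by fun_prop) fun x => ?_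
  positivity

theorem peetre (M : ℕ) {D : ℝ} {x y : E d} (h : ‖x - y‖ ^ 2 ≤ D) (z : E d) :
    W M (x - z) ≤ (2 * (1 + D)) ^ M * W M (y - z) := by
  have hD : 0 ≤ D := (sq_nonneg _).trans h
  unfold W
  have h1 : 0 < (1 + ‖x - z‖ ^ 2) ^ M := by positivity
  have h2 : 0 < (1 + ‖y - z‖ ^ 2) ^ M := by positivity
  rw [← div_eq_mul_inv, inv_eq_one_div, div_le_div_iff₀ h1 h2, one_mul, ← mul_pow]
  refine pow_le_pow_left₀ (by positivity) ?_ M
  have h3 : ‖y - z‖ ≤ ‖x - y‖ + ‖x - z‖ := by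
    have h4 : y - z = (x - z) - (x - y) := by abel
    rw [h4]
    have := norm_sub_le (x - z) (x - y)
    linarith
  nlinarith [norm_nonneg (y - z), norm_nonneg (x - y), norm_nonneg (x - z),
    sq_nonneg (‖x - y‖ - ‖x - z‖), sq_nonneg ‖x - z‖, mul_nonneg hD (sq_nonneg ‖x - z‖)]

theorem cu_norm {n : ℕ} {a x : E d} (hx : x ∈ cu n a) : ‖x - a‖ ^ 2 ≤ d * (n : ℝ) ^ 2 := by
  rw [EuclideanSpace.norm_sq_eq]
  have h1 : ∀ j ∈ (Finset.univ : Finset (Fin d)), ‖(x - a) j‖ ^ 2 ≤ (n : ℝ) ^ 2 := by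
    intro j _
    have h2 : ‖(x - a) j‖ ≤ n := hx j
    exact pow_le_pow_left₀ (norm_nonneg _) h2 2
  refine (Finset.sum_le_sum h1).trans ?_
  simp

theorem mem_cu (n : ℕ) (a x : E d) : x ∈ cu n a ↔ x - a ∈ cu n (0 : E d) := by
  simp [cu]

/-- averages over cubes -/
theorem avg (n : ℕ) {f : E d → ℝ≥0∞} (hf : Measurable f) :
    ∫⁻ a : E d, ∫⁻ x in cu n a, f x = volume (cu n (0 : E d)) * ∫⁻ x, f x := by
  have h1 : ∀ a : E d, ∫⁻ x in cu n a, f x =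
      ∫⁻ x, (cu n (0 : E d)).indicator 1 (x - a) * f x := by
    intro a
    rw [← lintegral_indicator (cu_meas n a)]
    refine lintegral_congr fun x => ?_
    by_cases hx : x ∈ cu n a
    · rw [Set.indicator_of_mem hx, Set.indicator_of_mem ((mem_cu n a x).1 hx)]
      simp
    · rw [Set.indicator_of_notMem hx, Set.indicator_of_notMem (fun h => hx ((mem_cu n a x).2 h)),
        zero_mul]
  simp only [h1]
  have hi : Measurable ((cu n (0 : E d)).indicator (1 : E d → ℝ≥0∞)) :=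
    measurable_one.indicator (cu_meas n 0)
  rw [lintegral_lintegral_swap]
  · have h2 : ∀ x : E d, ∫⁻ a : E d, (cu n (0 : E d)).indicator 1 (x - a) * f x =
        volume (cu n (0 : E d)) * f x := by
      intro x
      have hm : Measurable fun a : E d => (cu n (0 : E d)).indicator (1 : E d → ℝ≥0∞) (x - a) :=
        hi.comp (measurable_const.sub measurable_id)
      rw [lintegral_mul_const _ hm]
      congr 1
      rw [lintegral_sub_left_eq_self (fun y => (cu n (0 : E d)).indicator (1 : E d → ℝ≥0∞) y) x,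
        lintegral_indicator (cu_meas n 0)]
      simp
    simp only [h2]
    rw [lintegral_const_mul _ hf]
  · refine Measurable.aemeasurable ?_
    exact (hi.comp (measurable_snd.sub measurable_fst)).mul (hf.comp measurable_snd)

end

theorem t_ort : S_ORT := by
  intro d M K hKs
  -- the support
  obtain ⟨r, hr⟩ : ∃ r : ℕ, ∀ y : E d, K y ≠ 0 → ∀ j, |y j| ≤ r := by
    obtain ⟨R, hR⟩ := hKs.isCompact.isBounded.exists_norm_le
    refine ⟨⌈R⌉₊, fun y hy j => ?_⟩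
    have h1 := hR y (subset_tsupport _ hy)
    have h2 : |y j| ≤ ‖y‖ := PiLp.norm_apply_le y j
    exact h2.trans (h1.trans (Nat.le_ceil R))
  have hx : ∀ a : E d, ∀ x ∈ cu 1 a, ∀ u, K (x - u) ≠ 0 → u ∈ cu (r + 1) a := by
    intro a x hx u hu j
    have h1 := hr _ hu j
    have h2 := hx j
    have h3 : (x - u) j = x j - u j := rfl
    rw [h3] at h1
    rw [abs_le] at h1 h2 ⊢
    push_cast at h2 ⊢
    constructor <;> linarith [h1.1, h1.2, h2.1, h2.2]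
  set n : ℕ := r + 1 with hn
  have hn1 : 1 ≤ n := by omega
  set κ : ℝ≥0∞ := ∫⁻ ξ : E d, ‖𝓕 (K : E d → ℂ) ξ‖ₑ with hκ
  have hκt : κ ≠ ⊤ := (int_fK K).hasFiniteIntegral.ne
  set v1 : ℝ≥0∞ := volume (cu 1 (0 : E d)) with hv1
  set vn : ℝ≥0∞ := volume (cu n (0 : E d)) with hvn
  have hv1t : v1 ≠ ⊤ := (cu_compact 1 (0 : E d)).measure_lt_top.ne
  have hvnt : vn ≠ ⊤ := (cu_compact n (0 : E d)).measure_lt_top.ne
  have hv10 : v1 ≠ 0 := by
    have h1 : Metric.ball (0 : E d) 1 ⊆ cu 1 (0 : E d) := by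
      intro x hx j
      rw [mem_ball_zero_iff] at hx
      have h2 : |x j| ≤ ‖x‖ := PiLp.norm_apply_le x j
      have h3 : x j - (0 : E d) j = x j := sub_zero _
      rw [h3]
      push_cast
      exact h2.trans hx.le
    exact ((Metric.measure_ball_pos volume (0 : E d) one_pos).trans_le (measure_mono h1)).ne'
  set c1 : ℝ := (2 * (1 + d * (1 : ℕ) ^ 2)) ^ M with hc1
  set c2 : ℝ := (2 * (1 + d * (n : ℝ) ^ 2)) ^ M with hc2
  set C0 : ℝ≥0∞ := κ * κ * ENNReal.ofReal (2 ^ d * (2 * n : ℝ) ^ d) with hC0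
  have hC0t : C0 ≠ ⊤ := ENNReal.mul_ne_top (ENNReal.mul_ne_top hκt hκt) ENNReal.ofReal_ne_top
  set C' : ℝ≥0∞ := ENNReal.ofReal c1 * C0 * ENNReal.ofReal c2 with hC'
  have hC't : C' ≠ ⊤ := ENNReal.mul_ne_top (ENNReal.mul_ne_top ENNReal.ofReal_ne_top hC0t)
    ENNReal.ofReal_ne_top
  set Q : ℝ≥0∞ := v1⁻¹ * (C' * vn) with hQ
  have hQt : Q ≠ ⊤ := ENNReal.mul_ne_top (ENNReal.inv_ne_top.2 hv10) (ENNReal.mul_ne_top hC't hvnt)
  refine ⟨Q.toReal + 1, by positivity, ?_⟩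
  intro ι _ A hA F hF z
  have hcF := cont_inv hF
  set P : ι → E d → ℂ := fun i => inv (fun ξ => psi K (A i) ξ * F ξ) with hP
  have hPc : ∀ i, Continuous (P i) := by
    intro i
    refine cont_inv ?_
    refine int_bdd (c := ∑ m ∈ A i, ∫ y, ‖K y‖) hF ?_ fun ξ => ?_
    · unfold psi
      exact (continuous_finsetSum _ fun m _ =>
        (cont_fK K).comp (continuous_id.sub continuous_const)).aestronglyMeasurable
    · unfold psi
      exact (norm_sum_le _ _).trans (Finset.sum_le_sum fun m _ => bd_fK K _)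
  have hwm : Measurable fun x : E d => ENNReal.ofReal (W M (x - z)) :=
    ENNReal.measurable_ofReal.comp
      ((cont_W M).comp (continuous_id.sub continuous_const)).measurable
  have hfm : ∀ i, Measurable fun x : E d => ‖P i x‖ₑ ^ (2 : ℝ) * ENNReal.ofReal (W M (x - z)) :=
    fun i => ((hPc i).measurable.enorm.pow_const _).mul hwm
  have hgm : Measurable fun x : E d => ‖inv F x‖ₑ ^ (2 : ℝ) * ENNReal.ofReal (W M (x - z)) :=
    (hcF.measurable.enorm.pow_const _).mul hwm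
  have hsum : ∑ i, nrg M (P i) z =
      ∫⁻ x, ∑ i, ‖P i x‖ₑ ^ (2 : ℝ) * ENNReal.ofReal (W M (x - z)) := by
    rw [lintegral_finsetSum _ fun i _ => hfm i]
    rfl
  -- the local estimate with weights
  have hloc : ∀ a : E d, ∫⁻ x in cu 1 a, ∑ i, ‖P i x‖ₑ ^ (2 : ℝ) * ENNReal.ofReal (W M (x - z)) ≤
      C' * ∫⁻ u in cu n a, ‖inv F u‖ₑ ^ (2 : ℝ) * ENNReal.ofReal (W M (u - z)) := by
    intro a
    have h1 : ∫⁻ x in cu 1 a, ∑ i, ‖P i x‖ₑ ^ (2 : ℝ) * ENNReal.ofReal (W M (x - z)) ≤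
        ∫⁻ x in cu 1 a, (∑ i, ‖P i x‖ₑ ^ (2 : ℝ)) * ENNReal.ofReal (c1 * W M (a - z)) := by
      refine setLIntegral_mono' (cu_meas 1 a) fun x hx => ?_
      rw [← Finset.sum_mul]
      refine mul_le_mul_right (ENNReal.ofReal_le_ofReal ?_) _
      exact peetre M (cu_norm hx) z
    refine h1.trans ?_
    rw [lintegral_mul_const' _ _ ENNReal.ofReal_ne_top,
      lintegral_finsetSum _ fun i _ => (hPc i).measurable.enorm.pow_const _]
    refine (mul_le_mul_left (local_est K hn1 a (hx a) A hA hF) _).trans ?_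
    have h0 : ENNReal.ofReal (c1 * W M (a - z)) =
        ENNReal.ofReal c1 * ENNReal.ofReal (W M (a - z)) := ENNReal.ofReal_mul (by positivity)
    rw [h0]
    have h2 : ENNReal.ofReal (W M (a - z)) * ∫⁻ u in cu n a, ‖inv F u‖ₑ ^ (2 : ℝ) ≤
        ENNReal.ofReal c2 * ∫⁻ u in cu n a, ‖inv F u‖ₑ ^ (2 : ℝ) *
          ENNReal.ofReal (W M (u - z)) := by
      rw [← lintegral_const_mul' _ _ ENNReal.ofReal_ne_top,
        ← lintegral_const_mul' _ _ ENNReal.ofReal_ne_top]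
      refine setLIntegral_mono' (cu_meas n a) fun u hu => ?_
      have h3 : W M (a - z) ≤ c2 * W M (u - z) := by
        refine peetre M ?_ z
        rw [norm_sub_rev]
        exact cu_norm hu
      calc ENNReal.ofReal (W M (a - z)) * ‖inv F u‖ₑ ^ (2 : ℝ) ≤
            ENNReal.ofReal (c2 * W M (u - z)) * ‖inv F u‖ₑ ^ (2 : ℝ) :=
            mul_le_mul_left (ENNReal.ofReal_le_ofReal h3) _
        _ = ENNReal.ofReal c2 * (‖inv F u‖ₑ ^ (2 : ℝ) * ENNReal.ofReal (W M (u - z))) := by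
            rw [ENNReal.ofReal_mul (by positivity)]
            ring
    calc κ * (κ * (ENNReal.ofReal (2 ^ d * (2 * n : ℝ) ^ d) *
          (∫⁻ u in cu n a, ‖inv F u‖ₑ ^ (2 : ℝ)))) *
            (ENNReal.ofReal c1 * ENNReal.ofReal (W M (a - z))) =
          (ENNReal.ofReal c1 * C0) * (ENNReal.ofReal (W M (a - z)) *
            ∫⁻ u in cu n a, ‖inv F u‖ₑ ^ (2 : ℝ)) := by
          rw [hC0]
          ring
      _ ≤ (ENNReal.ofReal c1 * C0) * (ENNReal.ofReal c2 * ∫⁻ u in cu n a, ‖inv F u‖ₑ ^ (2 : ℝ) *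
            ENNReal.ofReal (W M (u - z))) := mul_le_mul_right h2 _
      _ = C' * ∫⁻ u in cu n a, ‖inv F u‖ₑ ^ (2 : ℝ) * ENNReal.ofReal (W M (u - z)) := by
          rw [hC']
          ring
  have hmain : v1 * ∑ i, nrg M (P i) z ≤ C' * vn * nrg M (inv F) z := by
    rw [hsum, ← avg 1 (Finset.measurable_sum _ fun i _ => hfm i)]
    refine (lintegral_mono hloc).trans ?_
    rw [lintegral_const_mul' _ _ hC't, avg n hgm]
    exact (mul_assoc C' vn _).ge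
  have hfin : ∑ i, nrg M (P i) z ≤ Q * nrg M (inv F) z := by
    have h1 : ∑ i, nrg M (P i) z = v1⁻¹ * (v1 * ∑ i, nrg M (P i) z) := by
      rw [← mul_assoc, ENNReal.inv_mul_cancel hv10 hv1t, one_mul]
    rw [h1, hQ, mul_assoc]
    exact mul_le_mul_right hmain _
  refine hfin.trans (mul_le_mul_left ?_ _)
  calc Q = ENNReal.ofReal Q.toReal := (ENNReal.ofReal_toReal hQt).symm
    _ ≤ _ := ENNReal.ofReal_le_ofReal (by linarith)

end Pool.Agent.N492.LS
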