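import Pool.Agent.N303.LS.Stm

/-!
# Project LS, part ORT: characters on cubes, Parseval and Bessel (helper492)
-/

set_option autoImplicit false

namespace Pool.Agent.N492.LS

open MeasureTheory Pool.Agent.N303.LS
open scoped ENNReal FourierTransform RealInnerProductSpace SchwartzMap ComplexConjugate

/-- the character `exp(2πit)` -/
noncomputable def e (t : ℝ) : ℂ := Complex.exp (((2 * Real.pi * t : ℝ) : ℂ) * Complex.I)

theorem e_add (s t : ℝ) : e (s + t) = e s * e t := by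
  unfold e
  rw [← Complex.exp_add]
  congr 1
  push_cast
  ring

theorem e_zero : e 0 = 1 := by simp [e]

theorem norm_e (t : ℝ) : ‖e t‖ = 1 := Complex.norm_exp_ofReal_mul_I _

theorem conj_e (t : ℝ) : conj (e t) = e (-t) := by
  unfold e
  rw [← Complex.exp_conj, map_mul, Complex.conj_ofReal, Complex.conj_I]
  congr 1
  push_cast
  ring

theorem e_int (k : ℤ) : e k = 1 := by
  unfold e
  rw [Complex.exp_eq_one_iff]
  exact ⟨k, by push_cast; ring⟩

theorem cont_e : Continuous e := by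
  unfold e
  fun_prop

theorem e_sum {ι : Type} (s : Finset ι) (f : ι → ℝ) : e (∑ i ∈ s, f i) = ∏ i ∈ s, e (f i) := by
  classical
  induction s using Finset.induction_on with
  | empty => simp [e_zero]
  | insert a s ha ih => rw [Finset.sum_insert ha, Finset.prod_insert ha, e_add, ih]

/-- the closed cube with centre `a` and side `2n` -/
def cu {d : ℕ} (n : ℕ) (a : E d) : Set (E d) := {x | ∀ j, |x j - a j| ≤ n}

theorem int1 (n : ℕ) (a : ℝ) (k : ℤ) :
    ∫ t in Set.Icc (a - n) (a + n), e (t * k) = if k = 0 then ((2 * n : ℝ) : ℂ) else 0 := by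
  rw [integral_Icc_eq_integral_Ioc, ← intervalIntegral.integral_of_le (by
    have : (0 : ℝ) ≤ n := n.cast_nonneg
    linarith)]
  split_ifs with h
  · subst h
    simp only [Int.cast_zero, mul_zero, e_zero, intervalIntegral.integral_const]
    rw [show a + n - (a - n) = 2 * n by ring, Complex.real_smul, mul_one]
  · have hc : (2 * Real.pi * k * Complex.I : ℂ) ≠ 0 := by
      have h1 : (Real.pi : ℂ) ≠ 0 := Complex.ofReal_ne_zero.2 Real.pi_ne_zero
      have h2 : (k : ℂ) ≠ 0 := Int.cast_ne_zero.2 h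
      exact mul_ne_zero (mul_ne_zero (mul_ne_zero two_ne_zero h1) h2) Complex.I_ne_zero
    have h1 : (fun t : ℝ => e (t * k)) = fun t : ℝ =>
        Complex.exp ((2 * Real.pi * k * Complex.I : ℂ) * t) := by
      funext t
      unfold e
      congr 1
      push_cast
      ring
    rw [h1, integral_exp_mul_complex hc, div_eq_zero_iff]
    left
    rw [sub_eq_zero]
    have h2 : (2 * Real.pi * k * Complex.I : ℂ) * ((a + n : ℝ) : ℂ) =
        (2 * Real.pi * k * Complex.I : ℂ) * ((a - n : ℝ) : ℂ) +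
          ((2 * n * k : ℤ) : ℂ) * (2 * Real.pi * Complex.I) := by
      push_cast
      ring
    rw [h2, Complex.exp_add, Complex.exp_int_mul_two_pi_mul_I, mul_one]

theorem cu_pre {d : ℕ} (n : ℕ) (a : E d) :
    cu n a = (WithLp.ofLp (p := 2)) ⁻¹' (Set.pi Set.univ fun j => Set.Icc (a j - n) (a j + n)) := by
  ext x
  simp only [cu, Set.mem_ofPred_eq, Set.mem_preimage, Set.mem_pi, Set.mem_univ, true_imp_iff,
    Set.mem_Icc]
  refine forall_congr' fun j => ?_
  rw [abs_le]
  constructor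
  · rintro ⟨h1, h2⟩
    constructor <;> linarith
  · rintro ⟨h1, h2⟩
    constructor <;> linarith

theorem cu_compact {d : ℕ} (n : ℕ) (a : E d) : IsCompact (cu n a) := by
  rw [cu_pre]
  have h : IsCompact (Set.pi Set.univ fun j : Fin d => Set.Icc (a j - n) (a j + n)) :=
    isCompact_univ_pi fun j => isCompact_Icc
  exact (EuclideanSpace.equiv (Fin d) ℝ).toHomeomorph.isCompact_preimage.2 h

theorem cu_meas {d : ℕ} (n : ℕ) (a : E d) : MeasurableSet (cu n a) :=
  (cu_compact n a).isClosed.measurableSet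

theorem inner_pt {d : ℕ} (x : E d) (k : Fin d → ℤ) : ⟪x, pt k⟫ = ∑ j, x j * k j := by
  rw [PiLp.inner_apply]
  refine Finset.sum_congr rfl fun j _ => ?_
  simp [pt, mul_comm]

/-- integrals of characters over cubes -/
theorem orth {d : ℕ} (n : ℕ) (a : E d) (k : Fin d → ℤ) :
    ∫ x in cu n a, e ⟪x, pt k⟫ = if k = 0 then (((2 * n : ℝ) ^ d : ℝ) : ℂ) else 0 := by
  rw [← integral_indicator (cu_meas n a)]
  have h1 : (fun x : E d => (cu n a).indicator (fun x => e ⟪x, pt k⟫) x) =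
      fun x : E d => (fun y : Fin d → ℝ => ∏ j, (Set.Icc (a j - n) (a j + n)).indicator
        (fun t => e (t * k j)) (y j)) (WithLp.ofLp x) := by
    funext x
    by_cases hx : x ∈ cu n a
    · rw [Set.indicator_of_mem hx, inner_pt, e_sum]
      refine Finset.prod_congr rfl fun j _ => ?_
      rw [cu_pre] at hx
      rw [Set.indicator_of_mem (hx j (Set.mem_univ j))]
    · rw [Set.indicator_of_notMem hx]
      symm
      rw [cu_pre] at hx
      simp only [Set.mem_preimage, Set.mem_pi, Set.mem_univ, true_imp_iff, not_forall] at hx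
      obtain ⟨j, hj⟩ := hx
      exact Finset.prod_eq_zero (Finset.mem_univ j) (Set.indicator_of_notMem hj _)
  have h2 : ∫ x : E d, (cu n a).indicator (fun x => e ⟪x, pt k⟫) x =
      ∫ y : Fin d → ℝ, ∏ j, (Set.Icc (a j - n) (a j + n)).indicator (fun t => e (t * k j)) (y j) := by
    rw [h1]
    exact (PiLp.volume_preserving_ofLp (Fin d)).integral_comp
      (MeasurableEquiv.toLp 2 (Fin d → ℝ)).symm.measurableEmbedding
      (fun y : Fin d → ℝ => (∏ j, (Set.Icc (a j - n) (a j + n)).indicator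
        (fun t => e (t * k j)) (y j) : ℂ))
  rw [h2, integral_fintype_prod_volume_eq_prod
    (fun (j : Fin d) (t : ℝ) => (Set.Icc (a j - n) (a j + n)).indicator (fun t => e (t * k j)) t)]
  have h3 : ∀ j, ∫ t : ℝ, (Set.Icc (a j - n) (a j + n)).indicator (fun t => e (t * k j)) t =
      if k j = 0 then ((2 * n : ℝ) : ℂ) else 0 := by
    intro j
    rw [integral_indicator measurableSet_Icc]
    exact int1 n (a j) (k j)
  rw [Finset.prod_congr rfl fun j _ => h3 j]
  split_ifs with h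
  · subst h
    simp
  · obtain ⟨j, hj⟩ := Function.ne_iff.1 h
    exact Finset.prod_eq_zero (Finset.mem_univ j) (if_neg hj)

theorem integrable_cu {d : ℕ} (n : ℕ) (a : E d) {g : E d → ℂ} (hg : Continuous g) :
    IntegrableOn g (cu n a) := hg.continuousOn.integrableOn_compact (cu_compact n a)

theorem cont_ch {d : ℕ} (m : Fin d → ℤ) : Continuous fun x : E d => e ⟪x, pt m⟫ :=
  cont_e.comp (continuous_id.inner continuous_const)

/-- trigonometric polynomials -/
noncomputable def tp {d : ℕ} (B : Finset (Fin d → ℤ)) (c : (Fin d → ℤ) → ℂ) (x : E d) : ℂ :=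
  ∑ m ∈ B, c m * e ⟪x, pt m⟫

theorem cont_tp {d : ℕ} (B : Finset (Fin d → ℤ)) (c : (Fin d → ℤ) → ℂ) :
    Continuous (tp B c) :=
  continuous_finsetSum _ fun m _ => continuous_const.mul (cont_ch m)

theorem pt_sub {d : ℕ} (m m' : Fin d → ℤ) : (pt (m - m') : E d) = pt m - pt m' := by
  ext j
  simp [pt]

theorem e_mul_conj {d : ℕ} (x : E d) (m m' : Fin d → ℤ) :
    e ⟪x, pt m⟫ * conj (e ⟪x, pt m'⟫) = e ⟪x, pt (m - m')⟫ := by
  rw [conj_e, ← e_add, pt_sub, inner_sub_right, sub_eq_add_neg]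

theorem pair_tp {d : ℕ} (n : ℕ) (a : E d) (B : Finset (Fin d → ℤ)) (c : (Fin d → ℤ) → ℂ)
    {m : Fin d → ℤ} (hm : m ∈ B) : ∫ x in cu n a, tp B c x * conj (e ⟪x, pt m⟫) =
      (((2 * n : ℝ) ^ d : ℝ) : ℂ) * c m := by
  classical
  have h1 : (fun x : E d => tp B c x * conj (e ⟪x, pt m⟫)) =
      fun x => ∑ m' ∈ B, c m' * e ⟪x, pt (m' - m)⟫ := by
    funext x
    unfold tp
    rw [Finset.sum_mul]
    refine Finset.sum_congr rfl fun m' _ => ?_
    rw [mul_assoc, e_mul_conj]
  have hi : ∀ m' ∈ B, Integrable (fun x : E d => c m' * e ⟪x, pt (m' - m)⟫)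
      (volume.restrict (cu n a)) :=
    fun m' _ => integrable_cu n a (continuous_const.mul (cont_ch (m' - m)))
  rw [h1, integral_finsetSum B hi]
  have h2 : ∀ m' ∈ B, ∫ x in cu n a, c m' * e ⟪x, pt (m' - m)⟫ =
      if m' = m then (((2 * n : ℝ) ^ d : ℝ) : ℂ) * c m else 0 := by
    intro m' _
    rw [integral_const_mul, orth]
    simp only [sub_eq_zero]
    split_ifs with h
    · rw [h, mul_comm]
    · rw [mul_zero]
  rw [Finset.sum_congr rfl h2, Finset.sum_ite_eq' B m]
  simp [hm]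

/-- Parseval's equality -/
theorem parseval {d : ℕ} (n : ℕ) (a : E d) (B : Finset (Fin d → ℤ)) (c : (Fin d → ℤ) → ℂ) :
    ∫ x in cu n a, ‖tp B c x‖ ^ 2 = (2 * n : ℝ) ^ d * ∑ m ∈ B, ‖c m‖ ^ 2 := by
  have h1 : (fun x : E d => ((‖tp B c x‖ ^ 2 : ℝ) : ℂ)) =
      fun x => ∑ m ∈ B, conj (c m) * (tp B c x * conj (e ⟪x, pt m⟫)) := by
    funext x
    push_cast
    rw [← Complex.mul_conj']
    conv_lhs => rw [show conj (tp B c x) = ∑ m ∈ B, conj (c m) * conj (e ⟪x, pt m⟫) by
      unfold tp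
      rw [map_sum]
      exact Finset.sum_congr rfl fun m _ => map_mul _ _ _]
    rw [Finset.mul_sum]
    refine Finset.sum_congr rfl fun m _ => ?_
    ring
  have h2 : ((∫ x in cu n a, ‖tp B c x‖ ^ 2 : ℝ) : ℂ) =
      (((2 * n : ℝ) ^ d * ∑ m ∈ B, ‖c m‖ ^ 2 : ℝ) : ℂ) := by
    have hi : ∀ m ∈ B, Integrable (fun x : E d => conj (c m) * (tp B c x * conj (e ⟪x, pt m⟫)))
        (volume.restrict (cu n a)) := fun m _ => integrable_cu n a
      (continuous_const.mul ((cont_tp B c).mul (Complex.continuous_conj.comp (cont_ch m))))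
    rw [← integral_complex_ofReal, h1, integral_finsetSum B hi]
    have h3 : ∀ m ∈ B, ∫ x in cu n a, conj (c m) * (tp B c x * conj (e ⟪x, pt m⟫)) =
        (((2 * n : ℝ) ^ d : ℝ) : ℂ) * ((‖c m‖ ^ 2 : ℝ) : ℂ) := by
      intro m hm
      rw [integral_const_mul, pair_tp n a B c hm]
      push_cast
      rw [← Complex.mul_conj']
      ring
    rw [Finset.sum_congr rfl h3, ← Finset.mul_sum]
    push_cast
    rfl
  exact_mod_cast h2

/-- Bessel's inequality -/
theorem bessel {d : ℕ} {n : ℕ} (hn : 1 ≤ n) (a : E d) (B : Finset (Fin d → ℤ)) {g : E d → ℂ}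
    (hg : Continuous g) : ∑ m ∈ B, ‖∫ x in cu n a, g x * conj (e ⟪x, pt m⟫)‖ ^ 2 ≤
      (2 * n : ℝ) ^ d * ∫ x in cu n a, ‖g x‖ ^ 2 := by
  set c : (Fin d → ℤ) → ℂ := fun m => ∫ x in cu n a, g x * conj (e ⟪x, pt m⟫) with hc
  set L : ℝ := (2 * n : ℝ) ^ d with hL
  have hn' : (1 : ℝ) ≤ n := by exact_mod_cast hn
  have hL0 : 0 < L := by rw [hL]; positivity
  set T : E d → ℂ := tp B c with hT
  have hTc : Continuous T := cont_tp B c
  have h0 : 0 ≤ ∫ x in cu n a, ‖g x - (L⁻¹ : ℂ) * T x‖ ^ 2 :=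
    integral_nonneg fun x => by positivity
  have h1 : (fun x : E d => ‖g x - (L⁻¹ : ℂ) * T x‖ ^ 2) = fun x =>
      ‖g x‖ ^ 2 - 2 * L⁻¹ * (g x * conj (T x)).re + L⁻¹ ^ 2 * ‖T x‖ ^ 2 := by
    funext x
    rw [← Complex.normSq_eq_norm_sq, ← Complex.normSq_eq_norm_sq, ← Complex.normSq_eq_norm_sq,
      Complex.normSq_sub, Complex.normSq_mul, map_mul]
    have e1 : Complex.normSq (L⁻¹ : ℂ) = L⁻¹ ^ 2 := by
      rw [← Complex.ofReal_inv, Complex.normSq_ofReal]
      ring
    have e2 : conj (L⁻¹ : ℂ) = ((L⁻¹ : ℝ) : ℂ) := by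
      rw [← Complex.ofReal_inv, Complex.conj_ofReal]
    rw [e1, e2]
    have e3 : (g x * (((L⁻¹ : ℝ) : ℂ) * conj (T x))).re = L⁻¹ * (g x * conj (T x)).re := by
      rw [show g x * (((L⁻¹ : ℝ) : ℂ) * conj (T x)) = ((L⁻¹ : ℝ) : ℂ) * (g x * conj (T x)) by ring,
        Complex.re_ofReal_mul]
    rw [e3]
    ring
  have i1 : IntegrableOn (fun x : E d => ‖g x‖ ^ 2) (cu n a) :=
    (hg.norm.pow 2).continuousOn.integrableOn_compact (cu_compact n a)
  have i2 : IntegrableOn (fun x : E d => g x * conj (T x)) (cu n a) :=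
    integrable_cu n a (hg.mul (Complex.continuous_conj.comp hTc))
  have i3 : IntegrableOn (fun x : E d => ‖T x‖ ^ 2) (cu n a) :=
    (hTc.norm.pow 2).continuousOn.integrableOn_compact (cu_compact n a)
  have h2 : ∫ x in cu n a, g x * conj (T x) = ((∑ m ∈ B, ‖c m‖ ^ 2 : ℝ) : ℂ) := by
    have e1 : (fun x : E d => g x * conj (T x)) =
        fun x => ∑ m ∈ B, conj (c m) * (g x * conj (e ⟪x, pt m⟫)) := by
      funext x
      rw [hT]
      unfold tp
      rw [map_sum, Finset.mul_sum]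
      refine Finset.sum_congr rfl fun m _ => ?_
      rw [map_mul]
      ring
    have hi : ∀ m ∈ B, Integrable (fun x : E d => conj (c m) * (g x * conj (e ⟪x, pt m⟫)))
        (volume.restrict (cu n a)) := fun m _ => integrable_cu n a
      (continuous_const.mul (hg.mul (Complex.continuous_conj.comp (cont_ch m))))
    rw [e1, integral_finsetSum B hi]
    push_cast
    refine Finset.sum_congr rfl fun m _ => ?_
    rw [integral_const_mul, ← Complex.mul_conj', mul_comm]
  have h3 : ∫ x in cu n a, (g x * conj (T x)).re = ∑ m ∈ B, ‖c m‖ ^ 2 := by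
    have e1 := integral_re i2
    have e2 : ∫ x in cu n a, (g x * conj (T x)).re = (∫ x in cu n a, g x * conj (T x)).re := e1
    rw [e2, h2, Complex.ofReal_re]
  have j1 : Integrable (fun x : E d => ‖g x‖ ^ 2) (volume.restrict (cu n a)) := i1
  have j2 : Integrable (fun x : E d => 2 * L⁻¹ * (g x * conj (T x)).re)
      (volume.restrict (cu n a)) := i2.re.const_mul _
  have j3 : Integrable (fun x : E d => L⁻¹ ^ 2 * ‖T x‖ ^ 2) (volume.restrict (cu n a)) :=
    i3.const_mul _
  have j12 : Integrable (fun x : E d => ‖g x‖ ^ 2 - 2 * L⁻¹ * (g x * conj (T x)).re)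
      (volume.restrict (cu n a)) := j1.sub j2
  rw [h1, integral_add j12 j3, integral_sub j1 j2, integral_const_mul, integral_const_mul,
    h3, hT, parseval n a B c] at h0
  have h6 : L⁻¹ ^ 2 * (L * ∑ m ∈ B, ‖c m‖ ^ 2) = L⁻¹ * ∑ m ∈ B, ‖c m‖ ^ 2 := by
    field_simp
  rw [← hL, h6] at h0
  have h7 : L⁻¹ * ∑ m ∈ B, ‖c m‖ ^ 2 ≤ ∫ x in cu n a, ‖g x‖ ^ 2 := by linarith
  rwa [inv_mul_le_iff₀ hL0] at h7

end Pool.Agent.N492.LS
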