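import Pool.Agent.N492.LS.OrtA

/-!
# Project LS, part ORT: the local formula and the local estimate (helper492)
-/

set_option autoImplicit false

namespace Pool.Agent.N492.LS

open MeasureTheory Pool.Agent.N303.LS
open scoped ENNReal FourierTransform RealInnerProductSpace SchwartzMap ComplexConjugate

theorem int_bdd {α : Type} [MeasurableSpace α] {μ : Measure α} {φ G : α → ℂ} {c : ℝ}
    (hG : Integrable G μ) (hφ : AEStronglyMeasurable φ μ) (h1 : ∀ x, ‖φ x‖ ≤ c) :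
    Integrable (fun x => φ x * G x) μ := hG.bdd_mul hφ (Filter.Eventually.of_forall h1)

section

variable {d : ℕ}

theorem inv_eq (F : E d → ℂ) (x : E d) : inv F x = ∫ ξ, e ⟪x, ξ⟫ * F ξ := rfl

theorem cont_el (ξ : E d) : Continuous fun x : E d => e ⟪x, ξ⟫ :=
  cont_e.comp (continuous_id.inner continuous_const)

theorem cont_er (x : E d) : Continuous fun ξ : E d => e ⟪x, ξ⟫ :=
  cont_e.comp (continuous_const.inner continuous_id)

theorem cont_inv {F : E d → ℂ} (hF : Integrable F) : Continuous (inv F) := by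
  refine continuous_of_dominated (F := fun x ξ => e ⟪x, ξ⟫ * F ξ) (bound := fun ξ => ‖F ξ‖)
    ?_ ?_ hF.norm ?_
  · intro x
    exact (cont_er x).aestronglyMeasurable.mul hF.aestronglyMeasurable
  · intro x
    exact Filter.Eventually.of_forall fun ξ => by rw [norm_mul, norm_e, one_mul]
  · exact Filter.Eventually.of_forall fun ξ => (cont_el ξ).mul continuous_const

theorem fourier_e (f : E d → ℂ) (ξ : E d) : 𝓕 f ξ = ∫ y, e (-⟪y, ξ⟫) * f y := by
  rw [Real.fourier_eq']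
  refine integral_congr_ae (Filter.Eventually.of_forall fun y => ?_)
  simp only [smul_eq_mul]
  unfold e
  congr 3
  ring_nf

theorem int_fK (K : 𝓢(E d, ℂ)) : Integrable (𝓕 (K : E d → ℂ)) := by
  rw [← SchwartzMap.fourier_coe]
  exact (𝓕 K).integrable

theorem cont_fK (K : 𝓢(E d, ℂ)) : Continuous (𝓕 (K : E d → ℂ)) := by
  rw [← SchwartzMap.fourier_coe]
  exact (𝓕 K).continuous

theorem inversion (K : 𝓢(E d, ℂ)) (x : E d) : K x = ∫ ξ, e ⟪x, ξ⟫ * 𝓕 (K : E d → ℂ) ξ := by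
  have h := Continuous.fourierInv_fourier_eq K.continuous K.integrable (int_fK K)
  have h1 := congrFun h x
  rw [Real.fourierInv_eq'] at h1
  rw [← h1]
  refine integral_congr_ae (Filter.Eventually.of_forall fun y => ?_)
  simp only [smul_eq_mul]
  unfold e
  rw [real_inner_comm]

theorem bd_fK (K : 𝓢(E d, ℂ)) (ξ : E d) : ‖𝓕 (K : E d → ℂ) ξ‖ ≤ ∫ y, ‖K y‖ := by
  rw [fourier_e]
  refine (norm_integral_le_integral_norm _).trans (le_of_eq ?_)
  refine integral_congr_ae (Filter.Eventually.of_forall fun y => ?_)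
  show ‖e (-⟪y, ξ⟫) * K y‖ = ‖K y‖
  rw [norm_mul, norm_e, one_mul]

theorem step1 (K : 𝓢(E d, ℂ)) {F : E d → ℂ} (hF : Integrable F) (p x : E d) :
    inv (fun η => 𝓕 (K : E d → ℂ) (η - p) * F η) x = ∫ y, K y * e ⟪y, p⟫ * inv F (x - y) := by
  have h1 : inv (fun η => 𝓕 (K : E d → ℂ) (η - p) * F η) x =
      ∫ η, ∫ y, (e ⟪y, p⟫ * e ⟪x - y, η⟫) * (F η * K y) := by
    rw [inv_eq]
    refine integral_congr_ae (Filter.Eventually.of_forall fun η => ?_)
    show e ⟪x, η⟫ * (𝓕 (K : E d → ℂ) (η - p) * F η) = _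
    rw [fourier_e, ← integral_mul_const, ← integral_const_mul]
    refine integral_congr_ae (Filter.Eventually.of_forall fun y => ?_)
    show e ⟪x, η⟫ * (e (-⟪y, η - p⟫) * K y * F η) = (e ⟪y, p⟫ * e ⟪x - y, η⟫) * (F η * K y)
    have h2 : e ⟪x, η⟫ * e (-⟪y, η - p⟫) = e ⟪y, p⟫ * e ⟪x - y, η⟫ := by
      rw [← e_add, ← e_add, inner_sub_left, inner_sub_right]
      congr 1
      ring
    rw [← h2]
    ring
  rw [h1, integral_integral_swap]
  · refine integral_congr_ae (Filter.Eventually.of_forall fun y => ?_)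
    show ∫ η, (e ⟪y, p⟫ * e ⟪x - y, η⟫) * (F η * K y) = K y * e ⟪y, p⟫ * inv F (x - y)
    rw [inv_eq, ← integral_const_mul]
    refine integral_congr_ae (Filter.Eventually.of_forall fun η => ?_)
    show (e ⟪y, p⟫ * e ⟪x - y, η⟫) * (F η * K y) = K y * e ⟪y, p⟫ * (e ⟪x - y, η⟫ * F η)
    ring
  · have h2 : Integrable (fun z : E d × E d => F z.1 * K z.2) (volume.prod volume) :=
      hF.mul_prod K.integrable
    refine int_bdd (φ := fun z : E d × E d => e ⟪z.2, p⟫ * e ⟪x - z.2, z.1⟫) (c := 1) h2 ?_ ?_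
    · refine Continuous.aestronglyMeasurable ?_
      exact (cont_e.comp (continuous_snd.inner continuous_const)).mul
        (cont_e.comp ((continuous_const.sub continuous_snd).inner continuous_fst))
    · intro z
      rw [norm_mul, norm_e, norm_e, one_mul]

/-- the Fourier transform of the restriction of `h` to a cube -/
noncomputable def bt (n : ℕ) (a : E d) (h : E d → ℂ) (ζ : E d) : ℂ :=
  ∫ u in cu n a, h u * conj (e ⟪u, ζ⟫)

theorem cont_bt (n : ℕ) (a : E d) {h : E d → ℂ} (hh : Continuous h) : Continuous (bt n a h) := by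
  refine continuous_of_dominated (F := fun ζ u => h u * conj (e ⟪u, ζ⟫)) (bound := fun u => ‖h u‖)
    ?_ ?_ (integrable_cu n a hh).norm ?_
  · intro ζ
    exact (hh.mul (Complex.continuous_conj.comp (cont_el ζ))).aestronglyMeasurable
  · intro ζ
    exact Filter.Eventually.of_forall fun u => by
      rw [norm_mul, RCLike.norm_conj, norm_e, mul_one]
  · exact Filter.Eventually.of_forall fun u =>
      continuous_const.mul (Complex.continuous_conj.comp (cont_er u))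

theorem bd_bt (n : ℕ) (a : E d) (h : E d → ℂ) (ζ : E d) :
    ‖bt n a h ζ‖ ≤ ∫ u in cu n a, ‖h u‖ := by
  unfold bt
  refine (norm_integral_le_integral_norm _).trans (le_of_eq ?_)
  refine integral_congr_ae (Filter.Eventually.of_forall fun u => ?_)
  show ‖h u * conj (e ⟪u, ζ⟫)‖ = ‖h u‖
  rw [norm_mul, RCLike.norm_conj, norm_e, mul_one]

theorem formula (K : 𝓢(E d, ℂ)) {F : E d → ℂ} (hF : Integrable F) (n : ℕ) (a x p : E d)
    (hx : ∀ u, K (x - u) ≠ 0 → u ∈ cu n a) :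
    inv (fun η => 𝓕 (K : E d → ℂ) (η - p) * F η) x =
      ∫ ξ, 𝓕 (K : E d → ℂ) ξ * (e ⟪x, ξ + p⟫ * bt n a (inv F) (ξ + p)) := by
  have hc := cont_inv hF
  rw [step1 K hF p x]
  have h1 : ∫ y, K y * e ⟪y, p⟫ * inv F (x - y) = ∫ u, K (x - u) * e ⟪x - u, p⟫ * inv F u := by
    rw [← integral_sub_left_eq_self (fun y => K y * e ⟪y, p⟫ * inv F (x - y)) volume x]
    refine integral_congr_ae (Filter.Eventually.of_forall fun u => ?_)
    show K (x - u) * e ⟪x - u, p⟫ * inv F (x - (x - u)) = K (x - u) * e ⟪x - u, p⟫ * inv F u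
    rw [sub_sub_cancel]
  have h2 : ∫ u, K (x - u) * e ⟪x - u, p⟫ * inv F u =
      ∫ u in cu n a, K (x - u) * e ⟪x - u, p⟫ * inv F u := by
    symm
    refine setIntegral_eq_integral_of_forall_compl_eq_zero fun u hu => ?_
    have h3 : K (x - u) = 0 := by
      by_contra h4
      exact hu (hx u h4)
    rw [h3, zero_mul, zero_mul]
  have h3 : ∫ u in cu n a, K (x - u) * e ⟪x - u, p⟫ * inv F u =
      ∫ u in cu n a, ∫ ξ, (e ⟪x - u, ξ⟫ * e ⟪x - u, p⟫) * (inv F u * 𝓕 (K : E d → ℂ) ξ) := by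
    refine integral_congr_ae (Filter.Eventually.of_forall fun u => ?_)
    show K (x - u) * e ⟪x - u, p⟫ * inv F u = _
    rw [inversion K (x - u), mul_assoc, ← integral_mul_const]
    refine integral_congr_ae (Filter.Eventually.of_forall fun ξ => ?_)
    show e ⟪x - u, ξ⟫ * 𝓕 (K : E d → ℂ) ξ * (e ⟪x - u, p⟫ * inv F u) =
      (e ⟪x - u, ξ⟫ * e ⟪x - u, p⟫) * (inv F u * 𝓕 (K : E d → ℂ) ξ)
    ring
  rw [h1, h2, h3, integral_integral_swap]
  · refine integral_congr_ae (Filter.Eventually.of_forall fun ξ => ?_)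
    show ∫ u in cu n a, (e ⟪x - u, ξ⟫ * e ⟪x - u, p⟫) * (inv F u * 𝓕 (K : E d → ℂ) ξ) =
      𝓕 (K : E d → ℂ) ξ * (e ⟪x, ξ + p⟫ * bt n a (inv F) (ξ + p))
    unfold bt
    rw [← integral_const_mul, ← integral_const_mul]
    refine integral_congr_ae (Filter.Eventually.of_forall fun u => ?_)
    show (e ⟪x - u, ξ⟫ * e ⟪x - u, p⟫) * (inv F u * 𝓕 (K : E d → ℂ) ξ) =
      𝓕 (K : E d → ℂ) ξ * (e ⟪x, ξ + p⟫ * (inv F u * conj (e ⟪u, ξ + p⟫)))
    have h4 : e ⟪x - u, ξ⟫ * e ⟪x - u, p⟫ = e ⟪x, ξ + p⟫ * conj (e ⟪u, ξ + p⟫) := by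
      rw [conj_e, ← e_add, ← e_add, ← inner_add_right, inner_sub_left, sub_eq_add_neg]
    rw [h4]
    ring
  · have h4 : Integrable (fun z : E d × E d => inv F z.1 * 𝓕 (K : E d → ℂ) z.2)
        ((volume.restrict (cu n a)).prod volume) :=
      (integrable_cu n a hc).integrable.mul_prod (int_fK K)
    refine int_bdd (φ := fun z : E d × E d => e ⟪x - z.1, z.2⟫ * e ⟪x - z.1, p⟫) (c := 1) h4 ?_ ?_
    · refine Continuous.aestronglyMeasurable ?_
      exact (cont_e.comp ((continuous_const.sub continuous_fst).inner continuous_snd)).mul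
        (cont_e.comp ((continuous_const.sub continuous_fst).inner continuous_const))
    · intro z
      rw [norm_mul, norm_e, norm_e, one_mul]

/-- the local formula for a group of cubes -/
theorem formulaA (K : 𝓢(E d, ℂ)) {F : E d → ℂ} (hF : Integrable F) (n : ℕ) (a x : E d)
    (hx : ∀ u, K (x - u) ≠ 0 → u ∈ cu n a) (A : Finset (Fin d → ℤ)) :
    inv (fun ξ => psi K A ξ * F ξ) x = ∫ ξ, 𝓕 (K : E d → ℂ) ξ *
      (e ⟪x, ξ⟫ * tp A (fun m => bt n a (inv F) (ξ + pt m)) x) := by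
  have hc := cont_inv hF
  have h1 : inv (fun ξ => psi K A ξ * F ξ) x =
      ∑ m ∈ A, inv (fun ξ => 𝓕 (K : E d → ℂ) (ξ - pt m) * F ξ) x := by
    simp only [inv_eq]
    have hi : ∀ m ∈ A, Integrable (fun ξ : E d =>
        e ⟪x, ξ⟫ * (𝓕 (K : E d → ℂ) (ξ - pt m) * F ξ)) := by
      intro m _
      refine int_bdd (c := 1) ?_ (cont_er x).aestronglyMeasurable fun ξ => (norm_e _).le
      refine int_bdd (c := ∫ y, ‖K y‖) hF ?_ fun ξ => bd_fK K _
      exact ((cont_fK K).comp (continuous_id.sub continuous_const)).aestronglyMeasurable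
    rw [← integral_finsetSum A hi]
    refine integral_congr_ae (Filter.Eventually.of_forall fun ξ => ?_)
    show e ⟪x, ξ⟫ * (psi K A ξ * F ξ) = ∑ m ∈ A, e ⟪x, ξ⟫ * (𝓕 (K : E d → ℂ) (ξ - pt m) * F ξ)
    unfold psi
    rw [Finset.sum_mul, Finset.mul_sum]
  rw [h1, Finset.sum_congr rfl fun m _ => formula K hF n a x (pt m) hx]
  have hi : ∀ m ∈ A, Integrable (fun ξ : E d =>
      𝓕 (K : E d → ℂ) ξ * (e ⟪x, ξ + pt m⟫ * bt n a (inv F) (ξ + pt m))) := by
    intro m _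
    have h2 : (fun ξ : E d => 𝓕 (K : E d → ℂ) ξ * (e ⟪x, ξ + pt m⟫ * bt n a (inv F) (ξ + pt m))) =
        fun ξ => (e ⟪x, ξ + pt m⟫ * bt n a (inv F) (ξ + pt m)) * 𝓕 (K : E d → ℂ) ξ := by
      funext ξ
      ring
    rw [h2]
    refine int_bdd (c := ∫ u in cu n a, ‖inv F u‖) (int_fK K) ?_ fun ξ => ?_
    · exact (((cont_er x).comp (continuous_id.add continuous_const)).mul
        ((cont_bt n a hc).comp (continuous_id.add continuous_const))).aestronglyMeasurable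
    · rw [norm_mul, norm_e, one_mul]
      exact bd_bt n a _ _
  rw [← integral_finsetSum A hi]
  refine integral_congr_ae (Filter.Eventually.of_forall fun ξ => ?_)
  show ∑ m ∈ A, 𝓕 (K : E d → ℂ) ξ * (e ⟪x, ξ + pt m⟫ * bt n a (inv F) (ξ + pt m)) =
    𝓕 (K : E d → ℂ) ξ * (e ⟪x, ξ⟫ * tp A (fun m => bt n a (inv F) (ξ + pt m)) x)
  unfold tp
  rw [Finset.mul_sum, Finset.mul_sum]
  refine Finset.sum_congr rfl fun m _ => ?_
  rw [inner_add_right, e_add]
  ring

/-- Cauchy–Schwarz with a weight -/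
theorem cs_w {α : Type} [MeasurableSpace α] {μ : Measure α} {k b : α → ℝ≥0∞}
    (hk : AEMeasurable k μ) (hb : AEMeasurable b μ) :
    (∫⁻ x, k x * b x ∂μ) ^ (2 : ℝ) ≤ (∫⁻ x, k x ∂μ) * ∫⁻ x, k x * b x ^ (2 : ℝ) ∂μ := by
  have h := ENNReal.lintegral_mul_le_Lp_mul_Lq μ Real.HolderConjugate.two_two
    (f := fun x => k x ^ (1 / 2 : ℝ)) (g := fun x => k x ^ (1 / 2 : ℝ) * b x)
    (hk.pow_const _) ((hk.pow_const _).mul hb)
  have h1 : ∀ x, ((fun x => k x ^ (1 / 2 : ℝ)) * fun x => k x ^ (1 / 2 : ℝ) * b x) x =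
      k x * b x := by
    intro x
    show k x ^ (1 / 2 : ℝ) * (k x ^ (1 / 2 : ℝ) * b x) = k x * b x
    rw [← mul_assoc, ← ENNReal.rpow_add_of_nonneg _ _ (by norm_num) (by norm_num)]
    norm_num
  have h2 : ∀ x, (k x ^ (1 / 2 : ℝ)) ^ (2 : ℝ) = k x := by
    intro x
    rw [← ENNReal.rpow_mul]
    norm_num
  have h3 : ∀ x, (k x ^ (1 / 2 : ℝ) * b x) ^ (2 : ℝ) = k x * b x ^ (2 : ℝ) := by
    intro x
    rw [ENNReal.mul_rpow_of_nonneg _ _ (by norm_num), h2]
  simp only [h1, h2, h3] at h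
  calc (∫⁻ x, k x * b x ∂μ) ^ (2 : ℝ) ≤ ((∫⁻ x, k x ∂μ) ^ (1 / 2 : ℝ) *
        (∫⁻ x, k x * b x ^ (2 : ℝ) ∂μ) ^ (1 / 2 : ℝ)) ^ (2 : ℝ) :=
        ENNReal.rpow_le_rpow h (by norm_num)
    _ = _ := by
        rw [ENNReal.mul_rpow_of_nonneg _ _ (by norm_num), ← ENNReal.rpow_mul, ← ENNReal.rpow_mul]
        norm_num

end

end Pool.Agent.N492.LS
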